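import Pool.Agent.H17.AH.TargetsX
import Pool.Agent.H30.VMP.XFT
import Pool.Agent.H15.BO.UEC

/-!
# MP_70ba79_ag: the exceptional lines and the conics do not cover the hypersurface (row XFH)
-/

set_option autoImplicit false

namespace Pool.Agent.H22.AH

open MvPolynomial SC Pool.Agent.H27.LV Pool.Agent.H17.VG
open Pool.Agent.H30.VM Pool.Agent.H17.BO
open Pool.Agent.H17.CI (Tup IlT PQT TxT frmT upT RatT)
open Pool.Agent.H17.AH
open Pool.Agent.H30.VMP (hom0 hom0_hom hom0_eval up_self)
open Pool.Agent.H15.BO (ind_of_minor)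

/-- a nonzero minor -/
lemma exists_minor {L : Type} [Field L] {n : ℕ} {x b c : Fin (n + 1) → L} {p : Fin (n + 1)}
    (hx : x p = 1) (hI : LinearIndependent L ![x, b, c]) :
    ∃ s : Fin 3 → Fin (n + 1),
      (Matrix.of fun u v : Fin 3 => (![x, b, c] : Fin 3 → Fin (n + 1) → L) u (s v)).det ≠ 0 := by
  by_contra hcon
  push Not at hcon
  rw [Fintype.linearIndependent_iff] at hI
  have hd : ∀ q r, (b q - b p * x q) * (c r - c p * x r) =
      (b r - b p * x r) * (c q - c p * x q) := by
    intro q r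
    have h1 := hcon ![p, q, r]
    rw [Matrix.det_fin_three] at h1
    simp only [Matrix.of_apply, Matrix.cons_val_zero, Matrix.cons_val_one, Matrix.cons_val] at h1
    rw [hx] at h1
    linear_combination h1
  by_cases hb : ∀ q, b q - b p * x q = 0
  · have h := hI ![b p, -1, 0] (by
      funext r
      have h1 := hb r
      simp only [Fin.sum_univ_three, Matrix.cons_val_zero, Matrix.cons_val_one, Matrix.cons_val,
        Pi.add_apply, Pi.smul_apply, smul_eq_mul, Pi.zero_apply]
      linear_combination -h1) 1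
    simp at h
  · push Not at hb
    obtain ⟨q, hq⟩ := hb
    obtain ⟨t, ht⟩ : ∃ t, t = (c q - c p * x q) / (b q - b p * x q) := ⟨_, rfl⟩
    have ht' : t * (b q - b p * x q) = c q - c p * x q := by
      rw [ht]
      exact div_mul_cancel₀ _ hq
    have h := hI ![-c p + t * b p, -t, 1] (by
      funext r
      have h1 := hd q r
      simp only [Fin.sum_univ_three, Matrix.cons_val_zero, Matrix.cons_val_one, Matrix.cons_val,
        Pi.add_apply, Pi.smul_apply, smul_eq_mul, Pi.zero_apply]
      apply mul_left_cancel₀ hq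
      rw [mul_zero]
      linear_combination h1 - (b r - b p * x r) * ht') 2
    simp at h

/-- scaling of a conic -/
lemma res2_smul {K : Type} [Field K] {n d : ℕ} {F : MvPolynomial (Fin (n + 1)) K}
    (hF : F.IsHomogeneous d) (a : K) (x b c : Fin (n + 1) → K) :
    res2 (a • x) (a • b) (a • c) F = Polynomial.C (a ^ d) * res2 x b c F := by
  unfold res2
  have h1 : (fun i => Polynomial.C ((a • x) i) + Polynomial.C ((a • b) i) * Polynomial.X +
      Polynomial.C ((a • c) i) * Polynomial.X ^ 2) = fun i => Polynomial.C a *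
        (Polynomial.C (x i) + Polynomial.C (b i) * Polynomial.X +
          Polynomial.C (c i) * Polynomial.X ^ 2) := by
    funext i
    simp only [Pi.smul_apply, smul_eq_mul, map_mul]
    ring
  rw [h1, aeval_def, aeval_def, eval₂_eq', eval₂_eq', Finset.mul_sum]
  refine Finset.sum_congr rfl fun m hm => ?_
  have h3 : m.degree = d := by
    by_contra h
    exact (mem_support_iff.1 hm) (hF.coeff_eq_zero h)
  simp_rw [mul_pow]
  rw [Finset.prod_mul_distrib, Finset.prod_pow_eq_pow_sum, ← Finsupp.degree_eq_sum, h3, map_pow]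
  ring

theorem pf_XFH (hXMCH : T_XMCH) (hXPCH : T_XPCH) (hXMT : Pool.Agent.H30.VM.T_XMT)
    (hXPO : Pool.Agent.H30.VM.T_XPO) (hNFT : Pool.Agent.H30.VM.T_NFT)
    (hGPT : Pool.Agent.H17.CI.T_GPT) (hXEL : Pool.Agent.H17.CI.T_XEL)
    (hNZT : Pool.Agent.H17.CI.T_NZT) (hNST : Pool.Agent.H17.CI.T_NST) : T_XFH := by
  intro k _ _ _ n ι _ i₀ i₁ e c hi01 hiall he0 hn1 hne hc
  classical
  obtain ⟨Z, hZ⟩ : ∃ Z : Finset ι, Z = {i₁} := ⟨_, rfl⟩
  rw [← hZ]
  have hi1 : i₁ ∈ Z := by
    rw [hZ]
    exact Finset.mem_singleton_self _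
  have hZc : Z.card = 1 := by
    rw [hZ]
    exact Finset.card_singleton _
  have hZn : Z.card ≤ n := by
    rw [hZc]
    exact hn1
  have hn : n + 2 ≤ ∑ i, (e i + 1) := by
    have h1 : (Finset.univ : Finset ι) = {i₀, i₁} := by
      ext i
      simp only [Finset.mem_univ, Finset.mem_insert, Finset.mem_singleton, true_iff]
      exact hiall i
    rw [h1, Finset.sum_pair hi01, he0]
    omega
  obtain ⟨Ω0, iF, iA, x0, B, h1, hB, hind, hon⟩ := hGPT k n ι e Z c hZn hc
  let _ := iF
  let _ := iA
  let x0' : Fin n → Ω0 := fun a => x0 a.succ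
  have hx0 : (Fin.cons 1 x0' : Fin (n + 1) → Ω0) = x0 := by
    funext i
    refine Fin.cases ?_ (fun j => ?_) i
    · rw [Fin.cons_zero, h1]
    · rw [Fin.cons_succ]
  -- the polynomials
  have hI : ∀ (q : Fin n) (a : (i : ι) → Fin (e i + 2)), ∃ Φ : MvPolynomial (Fin n) k,
      aeval x0' Φ ≠ 0 ∧
      ∀ (K : Type) [Field K] [Algebra k K] (x y : Fin n → K) (α : Fin 2 → K), y q = 1 →
        (∀ i ∈ Z, res (Fin.cons 1 x : Fin (n + 1) → K) (Fin.cons 0 y) (upT K (frmT c) i) = 0) →
        (∀ i, i ∉ Z → res (Fin.cons 1 x : Fin (n + 1) → K) (Fin.cons 0 y) (upT K (frmT c) i) =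
          Polynomial.C (eval (Fin.cons 1 x : Fin (n + 1) → K) (upT K (frmT c) i)) *
            (1 + Polynomial.C (α 0) * Polynomial.X) ^ (a i : ℕ) *
            (1 + Polynomial.C (α 1) * Polynomial.X) ^ (e i + 1 - a i)) → aeval x Φ = 0 := by
    intro q a
    obtain ⟨I, hI⟩ := hXPO k n ι (frmT c) Z q (fun i => (a i : ℕ)) (fun i => e i + 1 - a i)
    rcases hXEL k (Fin n) (Fin n ⊕ Fin 2) I Ω0 x0' with
      ⟨Φ, hΦ, hspan⟩ | ⟨Ω, iF', iA', x, y, hf, hsp⟩
    · refine ⟨Φ, hΦ, ?_⟩
      intro K _ _ x y α hq hz hnz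
      have h2 := (hI K x y α).2 ⟨hq, hz, hnz⟩
      have h3 : ∀ p ∈ Ideal.span I, aeval (Sum.elim x (Sum.elim y α)) p = 0 := by
        intro p hp
        have h4 : Ideal.span I ≤ RingHom.ker
            (aeval (R := k) (Sum.elim x (Sum.elim y α))) := by
          rw [Ideal.span_le]
          intro f hf
          exact h2 f hf
        exact h4 hp
      have h5 := h3 _ hspan
      rw [aeval_rename] at h5
      exact h5
    · exfalso
      let _ := iF'
      let _ := iA'
      let y' : Fin n → Ω := fun i => y (Sum.inl i)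
      let α : Fin 2 → Ω := fun t => y (Sum.inr t)
      have hy : y = Sum.elim y' α := by
        funext i
        rcases i with i | i <;> rfl
      rw [hy] at hf
      obtain ⟨hq, hz, hnz⟩ := (hI Ω x y' α).1 hf
      have : CharZero Ω := charZero_of_injective_algebraMap (algebraMap k Ω).injective
      refine hXMT k Ω n ι e Z c hn hc (Fin.cons 1 x) (Fin.cons 0 y') B (Fin.cons_zero _ _) ?_ hB
        ?_ (α 0) (α 1) (fun i => (a i : ℕ)) (fun i => e i + 1 - a i) ?_ hz hnz
      · rw [algebraicIndependent_iff]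
        intro p hp
        have h2 : aeval x (rename (fun b : B => b.1) p) = 0 := by
          rw [aeval_rename]
          exact hp
        have h3 := hsp _ h2
        rw [aeval_rename] at h3
        exact (algebraicIndependent_iff.1 hind) p h3
      · unfold Indep
        rw [LinearIndependent.pair_iff]
        intro s t hst
        have h2 := congrFun hst 0
        have h3 := congrFun hst q.succ
        simp only [Pi.add_apply, Pi.smul_apply, Fin.cons_zero, Fin.cons_succ, smul_eq_mul,
          mul_one, mul_zero, add_zero, Pi.zero_apply] at h2 h3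
        rw [h2, zero_mul, zero_add, hq, mul_one] at h3
        exact ⟨h2, h3⟩
      · intro i _
        have := (a i).2
        omega
  choose Φ hΦ hΦ' using hI
  -- the polynomials for the conics
  have hJ : ∀ s : Fin 3 → Fin (n + 1), ∃ Φ : MvPolynomial (Fin n) k, aeval x0' Φ ≠ 0 ∧
      ∀ (K : Type) [Field K] [Algebra k K] (x : Fin n → K) (b c' : Fin (n + 1) → K),
        (Matrix.of fun u v : Fin 3 => (![(Fin.cons 1 x : Fin (n + 1) → K), b, c'] :
          Fin 3 → Fin (n + 1) → K) u (s v)).det ≠ 0 →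
        res2 (Fin.cons 1 x : Fin (n + 1) → K) b c' (up K (frmT c i₁)) = 0 → aeval x Φ = 0 := by
    intro s
    obtain ⟨I, hI⟩ := hXPCH k n (frmT c i₁) s
    rcases hXEL k (Fin n) ((Fin (n + 1) ⊕ Fin (n + 1)) ⊕ Unit) I Ω0 x0' with
      ⟨Φ, hΦ, hspan⟩ | ⟨Ω, iF', iA', x, y, hf, hsp⟩
    · refine ⟨Φ, hΦ, ?_⟩
      intro K _ _ x b c' hdet hres
      have h2 := (hI K x b c' ((Matrix.of fun u v : Fin 3 =>
        (![(Fin.cons 1 x : Fin (n + 1) → K), b, c'] :
          Fin 3 → Fin (n + 1) → K) u (s v)).det)⁻¹).2 ⟨mul_inv_cancel₀ hdet, hres⟩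
      obtain ⟨w, hw⟩ : ∃ w : Fin n ⊕ ((Fin (n + 1) ⊕ Fin (n + 1)) ⊕ Unit) → K,
        w = Sum.elim x (Sum.elim (Sum.elim b c') fun _ => ((Matrix.of fun u v : Fin 3 =>
        (![(Fin.cons 1 x : Fin (n + 1) → K), b, c'] :
          Fin 3 → Fin (n + 1) → K) u (s v)).det)⁻¹) := ⟨_, rfl⟩
      rw [← hw] at h2
      have h3 : ∀ p ∈ Ideal.span I, aeval w p = 0 := by
        intro p hp
        have h4 : Ideal.span I ≤ RingHom.ker (aeval (R := k) w) := by
          rw [Ideal.span_le]
          intro f hf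
          exact h2 f hf
        exact h4 hp
      have h5 := h3 _ hspan
      rw [aeval_rename] at h5
      have h6 : w ∘ Sum.inl = x := by
        rw [hw]
        rfl
      rw [h6] at h5
      exact h5
    · exfalso
      let _ := iF'
      let _ := iA'
      obtain ⟨b, hb⟩ : ∃ b : Fin (n + 1) → Ω, b = fun i => y (Sum.inl (Sum.inl i)) := ⟨_, rfl⟩
      obtain ⟨c', hc'⟩ : ∃ c' : Fin (n + 1) → Ω, c' = fun i => y (Sum.inl (Sum.inr i)) := ⟨_, rfl⟩
      obtain ⟨z, hz⟩ : ∃ z : Ω, z = y (Sum.inr ()) := ⟨_, rfl⟩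
      have hy : y = Sum.elim (Sum.elim b c') fun _ => z := by
        funext i
        rcases i with (i | i) | i
        · rw [hb]; rfl
        · rw [hc']; rfl
        · rw [hz]; rfl
      rw [hy] at hf
      obtain ⟨hdet, hres⟩ := (hI Ω x b c' z).1 hf
      have hdet' : (Matrix.of fun u v : Fin 3 => (![(Fin.cons 1 x : Fin (n + 1) → Ω), b, c'] :
          Fin 3 → Fin (n + 1) → Ω) u (s v)).det ≠ 0 := by
        intro h0
        rw [h0, zero_mul] at hdet
        exact zero_ne_one hdet
      have : CharZero Ω := charZero_of_injective_algebraMap (algebraMap k Ω).injective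
      refine hXMCH k Ω n (e i₁ + 1) (by omega) (fun M => c ⟨i₁, M⟩)
        (hc.comp (fun M => (⟨i₁, M⟩ : Σ i, Mon (n + 1) (e i + 1))) ?_) (Fin.cons 1 x) b c' B
        (Fin.cons_zero _ _) ?_ (by omega) (ind_of_minor hdet') hres
      · intro M M' hMM
        exact eq_of_heq (Sigma.mk.inj_iff.1 hMM).2
      · rw [algebraicIndependent_iff]
        intro p hp
        have h2 : aeval x (rename (fun b : B => b.1) p) = 0 := by
          rw [aeval_rename]
          exact hp
        have h3 := hsp _ h2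
        rw [aeval_rename] at h3
        exact (algebraicIndependent_iff.1 hind) p h3
  choose ΦC hΦC hΦC' using hJ
  let Ψ1 : MvPolynomial (Fin n) k := ∏ q : Fin n, ∏ a : (i : ι) → Fin (e i + 2), Φ q a
  let Ψ2 : MvPolynomial (Fin n) k := ∏ s : Fin 3 → Fin (n + 1), ΦC s
  obtain ⟨Ψ, hΨ⟩ : ∃ Ψ : MvPolynomial (Fin n) k, Ψ = Ψ1 * Ψ2 := ⟨_, rfl⟩
  have hΨ0 : aeval x0' Ψ ≠ 0 := by
    rw [hΨ, map_mul]
    refine mul_ne_zero ?_ ?_
    · simp only [Ψ1, map_prod]
      exact Finset.prod_ne_zero_iff.2 fun q _ => Finset.prod_ne_zero_iff.2 fun a _ => hΦ q _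
    · simp only [Ψ2, map_prod]
      exact Finset.prod_ne_zero_iff.2 fun s _ => hΦC s
  -- dehomogenization
  let deh : MvPolynomial (Fin (n + 1)) k →ₐ[k] MvPolynomial (Fin n) k :=
    aeval (Fin.cons 1 X : Fin (n + 1) → MvPolynomial (Fin n) k)
  have hdeh : ∀ (K : Type) [Field K] [Algebra k K] (x : Fin n → K)
      (G : MvPolynomial (Fin (n + 1)) k),
      aeval x (deh G) = eval (Fin.cons 1 x : Fin (n + 1) → K) (up K G) := by
    intro K _ _ x G
    simp only [deh, up]
    rw [eval_map, ← aeval_def]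
    induction G using MvPolynomial.induction_on with
    | C a => simp
    | add p q hp hq => simp only [map_add, hp, hq]
    | mul_X p i hp =>
      simp only [map_mul, hp, aeval_X]
      congr 1
      refine Fin.cases ?_ (fun j => ?_) i
      · simp
      · simp
  have hnz0 : ∀ j, j ∉ Z → eval x0 (upT Ω0 (frmT c) j) ≠ 0 := by
    intro j hj h0
    have : CharZero Ω0 := charZero_of_injective_algebraMap (algebraMap k Ω0).injective
    have h2 := hNZT k Ω0 n ι e c hc x0 B h1 hind (insert j Z) (by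
      intro i hi
      rcases Finset.mem_insert.1 hi with h | h
      · rw [h]; exact h0
      · exact hon i h)
    rw [Finset.card_insert_of_notMem hj] at h2
    omega
  obtain ⟨x, hxE, hxg⟩ := hNST k n Ω0 x0' {f | ∃ i ∈ Z, f = deh (frmT c i)}
    (Ψ * ∏ i : ι, if i ∈ Z then 1 else deh (frmT c i))
    (by
      rintro f ⟨i, hi, rfl⟩
      rw [hdeh, hx0]
      exact hon i hi)
    (by
      rw [map_mul]
      refine mul_ne_zero hΨ0 ?_
      rw [map_prod]
      refine Finset.prod_ne_zero_iff.2 fun i _ => ?_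
      split_ifs with hi
      · rw [map_one]; exact one_ne_zero
      · rw [hdeh, hx0]
        exact hnz0 i hi)
  have hev : ∀ p : MvPolynomial (Fin n) k, aeval x p = eval x p := fun p => by
    rw [← coe_aeval_eq_eval]
    rfl
  have hevk : ∀ (G : MvPolynomial (Fin (n + 1)) k),
      eval x (deh G) = eval (Fin.cons 1 x : Fin (n + 1) → k) G := by
    intro G
    have h2 := hdeh k x G
    rw [hev] at h2
    rw [h2]
    congr 1
    exact MvPolynomial.map_id G
  refine ⟨X 0 * hom0 Ψ, 1 + Ψ.totalDegree, (isHomogeneous_X k 0).mul (hom0_hom Ψ),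
    ⟨Fin.cons 1 x, ?_, ?_⟩, ?_⟩
  · intro i
    constructor
    · intro h0
      by_contra hi
      rw [← hevk] at h0
      apply hxg
      have h2 : eval x (∏ j : ι, if j ∈ Z then 1 else deh (frmT c j)) = 0 := by
        rw [map_prod]
        refine Finset.prod_eq_zero (Finset.mem_univ i) ?_
        rw [if_neg hi]
        exact h0
      rw [RingHom.map_mul, h2, mul_zero]
    · intro hi
      rw [← hevk]
      exact hxE _ ⟨i, hi, rfl⟩
  · intro h0
    apply hxg
    have h2 := hom0_eval (K := k) Ψ (Fin.cons 1 x) x (by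
      intro a
      rw [Fin.cons_succ, Fin.cons_zero, one_mul])
    rw [up_self, Fin.cons_zero, one_pow, one_mul, hev] at h2
    rw [map_mul, eval_X, Fin.cons_zero, one_mul, h2] at h0
    rw [RingHom.map_mul, h0, zero_mul]
  · intro K _ _ x hxZ hex
    have hmul : eval x (up K (X 0 * hom0 Ψ)) = x 0 * eval x (up K (hom0 Ψ)) := by
      unfold up
      rw [map_mul, map_X, map_mul, eval_X]
    rw [hmul]
    by_cases hx0' : x 0 = 0
    · rw [hx0', zero_mul]
    have hF : ∀ i, (upT K (frmT c) i).IsHomogeneous (e i + 1) := fun i =>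
      (frm_homog fun M => c ⟨i, M⟩).map _
    obtain ⟨u, hu⟩ : ∃ u : Fin n → K, u = fun a => (x 0)⁻¹ * x a.succ := ⟨_, rfl⟩
    have hx1 : (x 0)⁻¹ • x = (Fin.cons 1 u : Fin (n + 1) → K) := by
      funext i
      rw [Pi.smul_apply, smul_eq_mul]
      refine Fin.cases ?_ (fun j => ?_) i
      · rw [Fin.cons_zero, inv_mul_cancel₀ hx0']
      · rw [Fin.cons_succ, hu]
    suffices hΨu : aeval u Ψ = 0 by
      rw [hom0_eval Ψ x u (by
        intro a
        rw [hu]
        show x a.succ = x 0 * ((x 0)⁻¹ * x a.succ)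
        rw [mul_inv_cancel_left₀ hx0']), hΨu, mul_zero, mul_zero]
    rw [hΨ, map_mul]
    rcases hex with ⟨y, hxy, hex⟩ | ⟨b, c', hbc, hres0⟩
    swap
    · -- conics
      have h1 : LinearIndependent K ![(Fin.cons 1 u : Fin (n + 1) → K), (x 0)⁻¹ • b,
          (x 0)⁻¹ • c'] := by
        rw [← hx1]
        have h2 := hbc.units_smul fun _ => Units.mk0 (x 0)⁻¹ (inv_ne_zero hx0')
        have h3 : ((fun _ : Fin 3 => Units.mk0 (x 0)⁻¹ (inv_ne_zero hx0')) • ![x, b, c']) =
            ![(x 0)⁻¹ • x, (x 0)⁻¹ • b, (x 0)⁻¹ • c'] := by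
          funext i
          fin_cases i <;> rfl
        rw [h3] at h2
        exact h2
      obtain ⟨s, hs⟩ := exists_minor (p := 0) (Fin.cons_zero _ _) h1
      have h2 := hΦC' s K u _ _ hs (by
        rw [← hx1]
        have h3 := res2_smul (hF i₁) (x 0)⁻¹ x b c'
        change res2 ((x 0)⁻¹ • x) ((x 0)⁻¹ • b) ((x 0)⁻¹ • c') (upT K (frmT c) i₁) = 0
        rw [h3, hres0, mul_zero])
      have h3 : aeval u Ψ2 = 0 := by
        simp only [Ψ2, map_prod]
        exact Finset.prod_eq_zero (Finset.mem_univ s) h2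
      rw [h3, mul_zero]
    -- another point of the line
    have hq : ∃ q : Fin n, y q.succ - y 0 * (x 0)⁻¹ * x q.succ ≠ 0 := by
      by_contra hcon
      push Not at hcon
      unfold Indep at hxy
      rw [LinearIndependent.pair_iff] at hxy
      have h2 := hxy (-(y 0 * (x 0)⁻¹)) 1 (by
        funext i
        simp only [Pi.add_apply, Pi.smul_apply, smul_eq_mul, one_mul, Pi.zero_apply]
        refine Fin.cases ?_ (fun j => ?_) i
        · field_simp
          ring
        · have h3 := hcon j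
          linear_combination h3)
      exact one_ne_zero h2.2
    obtain ⟨q, hq⟩ := hq
    obtain ⟨s, hs⟩ : ∃ s : K, s = (y q.succ - y 0 * (x 0)⁻¹ * x q.succ)⁻¹ := ⟨_, rfl⟩
    have hs0 : s ≠ 0 := by
      rw [hs]
      exact inv_ne_zero hq
    have hex' := hNFT K n ι e Z (upT K (frmT c)) x y (x 0)⁻¹ s (-(s * (y 0 * (x 0)⁻¹))) hF
      (inv_ne_zero hx0') hs0 hex
    obtain ⟨w, hw⟩ : ∃ w : Fin n → K, w = fun a =>
      s * y a.succ + -(s * (y 0 * (x 0)⁻¹)) * x a.succ := ⟨_, rfl⟩
    have hy1 : s • y + -(s * (y 0 * (x 0)⁻¹)) • x = (Fin.cons 0 w : Fin (n + 1) → K) := by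
      funext i
      rw [Pi.add_apply, Pi.smul_apply, Pi.smul_apply, smul_eq_mul, smul_eq_mul]
      refine Fin.cases ?_ (fun j => ?_) i
      · rw [Fin.cons_zero]
        field_simp
        ring
      · rw [Fin.cons_succ, hw]
    have hwq : w q = 1 := by
      rw [hw]
      show s * y q.succ + -(s * (y 0 * (x 0)⁻¹)) * x q.succ = 1
      have h2 : s * (y q.succ - y 0 * (x 0)⁻¹ * x q.succ) = 1 := by
        rw [hs]
        exact inv_mul_cancel₀ hq
      linear_combination h2
    rw [hx1, hy1] at hex'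
    obtain ⟨hz, α, β, hnz⟩ := hex'
    choose a b hab hab' using hnz
    -- the point over the algebraic closure
    have hup : ∀ i, upT (AlgebraicClosure K) (frmT c) i =
        MvPolynomial.map (algebraMap K (AlgebraicClosure K)) (upT K (frmT c) i) := by
      intro i
      unfold upT up
      rw [MvPolynomial.map_map, ← IsScalarTower.algebraMap_eq]
    have hcons : ∀ (r : K) (u : Fin n → K),
        (Fin.cons (algebraMap K (AlgebraicClosure K) r)
          (fun a => algebraMap K (AlgebraicClosure K) (u a)) : Fin (n + 1) → _) =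
        fun i => algebraMap K (AlgebraicClosure K) ((Fin.cons r u : Fin (n + 1) → K) i) := by
      intro r u
      funext i
      refine Fin.cases ?_ (fun j => ?_) i
      · rw [Fin.cons_zero, Fin.cons_zero]
      · rw [Fin.cons_succ, Fin.cons_succ]
    have hres : ∀ i, res (Fin.cons 1 (fun a => algebraMap K (AlgebraicClosure K) (u a)) :
        Fin (n + 1) → AlgebraicClosure K) (Fin.cons 0 fun a => algebraMap K _ (w a))
        (upT (AlgebraicClosure K) (frmT c) i) =
        (res (Fin.cons 1 u : Fin (n + 1) → K) (Fin.cons 0 w) (upT K (frmT c) i)).map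
          (algebraMap K (AlgebraicClosure K)) := by
      intro i
      refine Polynomial.funext fun T => ?_
      rw [TT.eval_map_res, TT.eval_res, hup]
      congr 2
      funext j
      have h2 := congrFun (hcons 1 u) j
      have h3 := congrFun (hcons 0 w) j
      rw [map_one] at h2
      rw [map_zero] at h3
      rw [h2, h3]
    have hevK : ∀ i, eval (Fin.cons 1 (fun a => algebraMap K (AlgebraicClosure K) (u a)) :
        Fin (n + 1) → AlgebraicClosure K) (upT (AlgebraicClosure K) (frmT c) i) =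
        algebraMap K (AlgebraicClosure K)
          (eval (Fin.cons 1 u : Fin (n + 1) → K) (upT K (frmT c) i)) := by
      intro i
      have h2 := hcons 1 u
      rw [map_one] at h2
      rw [h2, hup]
      exact (TT.up_eval (algebraMap K (AlgebraicClosure K)) _ _).symm
    obtain ⟨a', ha'⟩ : ∃ a' : (i : ι) → Fin (e i + 2), ∀ i (hi : i ∉ Z), (a' i : ℕ) = a i hi := by
      refine ⟨fun i => if hi : i ∉ Z then ⟨a i hi, by have := hab i hi; omega⟩ else 0, ?_⟩
      intro i hi
      simp [dif_pos hi]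
    have hfin : aeval (fun a => algebraMap K (AlgebraicClosure K) (u a)) (Φ q a') = 0 := by
      refine hΦ' q a' (AlgebraicClosure K) _ (fun a => algebraMap K (AlgebraicClosure K) (w a))
        ![α, β] ?_ ?_ ?_
      · rw [hwq, map_one]
      · intro i hi
        rw [hres, hz i hi, Polynomial.map_zero]
      · intro i hi
        have h2 : e i + 1 - (a' i : ℕ) = b i hi := by
          have := hab i hi
          have := ha' i hi
          omega
        rw [hres, hab' i hi, hevK, h2, ha' i hi]
        rfl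
    have hΨu : aeval u Ψ1 = 0 := by
      apply (algebraMap K (AlgebraicClosure K)).injective
      rw [map_zero, ← aeval_algebraMap_apply]
      simp only [Ψ1, map_prod]
      exact Finset.prod_eq_zero (Finset.mem_univ q) (Finset.prod_eq_zero (Finset.mem_univ a') hfin)
    rw [hΨu, zero_mul]


end Pool.Agent.H22.AH
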